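import Pool.Agent.Q61.Stress

set_option autoImplicit false

open InnerProductSpace Laplacian Topology Filter Set
open scoped ContDiff ComplexConjugate

namespace Pool.Agent.Results.MP_f43ce7_an.StressNearFar

/-- `∂Ω` is of class `C^∞`: near each boundary point `Ω` is a sublevel set of a smooth function with
nonvanishing derivative. -/
def SmoothBoundary (Ω : Set ℂ) : Prop :=
  ∀ x ∈ frontier Ω, ∃ ρ : ℂ → ℝ, ContDiff ℝ ∞ ρ ∧ fderiv ℝ ρ x ≠ 0 ∧
    ∀ᶠ y in 𝓝 x, (y ∈ Ω ↔ ρ y < 0)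

/-- The domains of the problem, in the plane `ℂ = ℝ²`. -/
structure Admissible (Ω : Set ℂ) : Prop where
  isOpen : IsOpen Ω
  nonempty : Ω.Nonempty
  bounded : Bornology.IsBounded Ω
  convex : Convex ℝ Ω
  symm_x : ∀ z ∈ Ω, conj z ∈ Ω
  symm_y : ∀ z ∈ Ω, -conj z ∈ Ω
  not_disc : ∀ (c : ℂ) (r : ℝ), Ω ≠ Metric.ball c r
  smooth : SmoothBoundary Ω

/-- The closed arc of `∂Ω` in the first quadrant. -/
def Arc (Ω : Set ℂ) : Set ℂ := {z | z ∈ frontier Ω ∧ 0 ≤ z.re ∧ 0 ≤ z.im}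

/-- `u` is a smooth function on the plane that solves `-Δu = 2` in `Ω` and vanishes on `∂Ω`; so its
restriction to the closure of `Ω` is the torsion function. -/
structure IsTorsion (Ω : Set ℂ) (u : ℂ → ℝ) : Prop where
  smooth : ContDiff ℝ ∞ u
  eqn : ∀ z ∈ Ω, (Δ u) z = -2
  zero : ∀ z ∈ frontier Ω, u z = 0

/-- `p` is the unique point of `Γ` farthest from the origin. -/
def UniqueFarthest (Γ : Set ℂ) (p : ℂ) : Prop := p ∈ Γ ∧ ∀ z ∈ Γ, z ≠ p → ‖z‖ < ‖p‖

/-- `p` is the unique point of `Γ` closest to the origin. -/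
def UniqueClosest (Γ : Set ℂ) (p : ℂ) : Prop := p ∈ Γ ∧ ∀ z ∈ Γ, z ≠ p → ‖p‖ < ‖z‖

/-- `p` is a point of the arc at which `|∇u|` attains its maximum over `∂Ω`. -/
def MaxStress (Ω : Set ℂ) (u : ℂ → ℝ) (p : ℂ) : Prop :=
  p ∈ Arc Ω ∧ ∀ z ∈ frontier Ω, ‖gradient u z‖ ≤ ‖gradient u p‖

open Q61.Stress

theorem q_conj (z : ℂ) : q (conj z) = q z := by simp [q]
theorem s_conj (z : ℂ) : s (conj z) = s z := by simp [s]
theorem q_neg (z : ℂ) : q (-z) = q z := by simp [q]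
theorem s_neg (z : ℂ) : s (-z) = s z := by simp [s]
theorem u_conj (z : ℂ) : u (conj z) = u z := by rw [u_eq, u_eq, q_conj, s_conj]
theorem u_negz (z : ℂ) : u (-z) = u z := by rw [u_eq, u_eq, q_neg, s_neg]

theorem P'_conj (z : ℂ) : ‖P' (conj z)‖ = ‖P' z‖ := by
  have : P' (conj z) = conj (P' z) := by
    simp only [P', map_add, map_mul, map_pow, map_ofNat]
  rw [this, RCLike.norm_conj]

theorem P'_neg (z : ℂ) : ‖P' (-z)‖ = ‖P' z‖ := by
  have : P' (-z) = -(P' z) := by simp only [P']; ring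
  rw [this, norm_neg]

theorem grad_conj (z : ℂ) : ‖gradient u (conj z)‖ = ‖gradient u z‖ := by
  rw [← sq_eq_sq₀ (norm_nonneg _) (norm_nonneg _), gradsq, gradsq, zP_re, zP_re, P'_conj, q_conj,
    s_conj]

theorem grad_neg (z : ℂ) : ‖gradient u (-z)‖ = ‖gradient u z‖ := by
  rw [← sq_eq_sq₀ (norm_nonneg _) (norm_nonneg _), gradsq, gradsq, zP_re, zP_re, P'_neg, q_neg,
    s_neg]

theorem conj_frontier {z : ℂ} (hz : z ∈ frontier Ω) : conj z ∈ frontier Ω := by
  rw [mem_frontier] at hz ⊢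
  rw [u_conj, RCLike.norm_conj]; exact hz

theorem neg_frontier {z : ℂ} (hz : z ∈ frontier Ω) : -z ∈ frontier Ω := by
  rw [mem_frontier] at hz ⊢
  rw [u_negz, norm_neg]; exact hz

theorem s_bounds {z : ℂ} (hz : z ∈ frontier Ω) : 999 / 1000 ≤ s z ∧ s z ≤ 1001 / 1000 := by
  rw [mem_frontier] at hz
  have := abs_le.1 (s_near hz.1.le hz.2)
  constructor <;> norm_num at this <;> linarith

theorem farthest {α : ℝ} (h0 : 0 ≤ α) (h : ((α:ℂ)) ∈ frontier Ω) :
    UniqueFarthest (Arc Ω) (α : ℂ) := by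
  refine ⟨⟨h, by simpa using h0, by simp⟩, ?_⟩
  intro z hz hne
  obtain ⟨k, hk0, hk1, hk⟩ := compare hz.1 h
  have hq := abs_le.1 (q_le z)
  have e : q (α:ℂ) = s (α:ℂ) := by simp [q, s]
  by_contra hh
  push Not at hh
  have h1 : s (α:ℂ) ≤ s z := by
    rw [← norm_sq_eq, ← norm_sq_eq]
    exact pow_le_pow_left₀ (norm_nonneg _) hh 2
  have h2 : 0 ≤ q z - q (α:ℂ) := by
    by_contra h3
    push Not at h3
    have := mul_neg_of_pos_of_neg hk0 h3
    linarith
  have h3 : s z - s (α:ℂ) ≤ 1 / 2 * (q z - q (α:ℂ)) := by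
    rw [hk]; exact mul_le_mul_of_nonneg_right hk1 h2
  apply hne
  have h4 : s z = s (α:ℂ) := by rw [e] at h3; linarith [hq.2]
  have h5 : q z = q (α:ℂ) := by rw [e] at h3 h2 ⊢; linarith [hq.2]
  exact ext_of hz.2.1 hz.2.2 (by simpa using h0) (by simp) h5 h4

theorem closest {β : ℝ} (h0 : 0 ≤ β) (h : ((β:ℂ) * Complex.I) ∈ frontier Ω) :
    UniqueClosest (Arc Ω) ((β : ℂ) * Complex.I) := by
  refine ⟨⟨h, by simp, by simpa using h0⟩, ?_⟩
  intro z hz hne
  obtain ⟨k, hk0, hk1, hk⟩ := compare h hz.1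
  have hq := abs_le.1 (q_le z)
  have e : q ((β:ℂ) * Complex.I) = -s ((β:ℂ) * Complex.I) := by simp [q, s]
  by_contra hh
  push Not at hh
  have h1 : s z ≤ s ((β:ℂ) * Complex.I) := by
    rw [← norm_sq_eq, ← norm_sq_eq]
    exact pow_le_pow_left₀ (norm_nonneg _) hh 2
  have h2 : 0 ≤ q ((β:ℂ) * Complex.I) - q z := by
    by_contra h3
    push Not at h3
    have := mul_neg_of_pos_of_neg hk0 h3
    linarith
  have h3 : s ((β:ℂ) * Complex.I) - s z ≤ 1 / 2 * (q ((β:ℂ) * Complex.I) - q z) := by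
    rw [hk]; exact mul_le_mul_of_nonneg_right hk1 h2
  apply hne
  have h4 : s z = s ((β:ℂ) * Complex.I) := by rw [e] at h3; linarith [hq.1]
  have h5 : q z = q ((β:ℂ) * Complex.I) := by rw [e] at h3 h2 ⊢; linarith [hq.1]
  exact ext_of hz.2.1 hz.2.2 (by simp) (by simpa using h0) h5 h4

theorem compact_frontier : IsCompact (frontier Ω) := by
  apply Metric.isCompact_of_isClosed_isBounded isClosed_frontier
  refine (Metric.isBounded_ball (x := (0:ℂ)) (r := 2)).subset ?_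
  intro z hz
  rw [mem_frontier] at hz
  simpa using hz.1

theorem grad_cont : Continuous (fun z => ‖gradient u z‖) := by
  have : (fun z => ‖gradient u z‖) = fun z => ‖-z + (1 / 10 ^ 7 : ℝ) • conj (P' z)‖ := by
    funext z; rw [grad_u]
  rw [this]
  unfold P'
  fun_prop

theorem exists_max : ∃ p, MaxStress Ω u p := by
  obtain ⟨ρ, hρ1, hρ2, hρ⟩ := ray (e := 1) (by simp)
  obtain ⟨z, hz, hmax⟩ := compact_frontier.exists_isMaxOn ⟨_, hρ⟩ grad_cont.continuousOn
  have hm : ∀ w ∈ frontier Ω, ‖gradient u w‖ ≤ ‖gradient u z‖ := fun w hw => hmax hw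
  rcases le_total 0 z.re with h1 | h1 <;> rcases le_total 0 z.im with h2 | h2
  · exact ⟨z, ⟨hz, h1, h2⟩, hm⟩
  · refine ⟨conj z, ⟨conj_frontier hz, by simpa using h1, by simpa using h2⟩, ?_⟩
    intro w hw; rw [grad_conj]; exact hm w hw
  · refine ⟨-conj z, ⟨neg_frontier (conj_frontier hz), by simpa using h1, by simpa using h2⟩, ?_⟩
    intro w hw; rw [grad_neg, grad_conj]; exact hm w hw
  · refine ⟨-z, ⟨neg_frontier hz, by simpa using h1, by simpa using h2⟩, ?_⟩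
    intro w hw; rw [grad_neg]; exact hm w hw

/-- on the boundary `|∇u|² = 1 - 2εG + ε²|P'|²` -/
theorem grad_bdry {z : ℂ} (hz : z ∈ frontier Ω) : ‖gradient u z‖ ^ 2 =
    1 - 2 / 10 ^ 7 * (60 * q z + 81 * (2 * q z ^ 2 - s z ^ 2) + 50 * (4 * q z ^ 3 - 3 * q z * s z ^ 2))
      + (1 / 10 ^ 7) ^ 2 * ‖P' z‖ ^ 2 := by
  rw [mem_frontier] at hz
  have e := hz.2
  rw [u_eq] at e
  rw [gradsq, zP_re]
  linear_combination (-2) * e

set_option maxHeartbeats 1000000 in
theorem q_max {p : ℂ} (hp : MaxStress Ω u p) : 1 / 20 < q p := by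
  have he : ‖(4 / 5 + 3 / 5 * Complex.I : ℂ)‖ = 1 := by
    have : ‖(4 / 5 + 3 / 5 * Complex.I : ℂ)‖ ^ 2 = 1 := by
      rw [norm_sq_eq, s]
      simp
      norm_num
    have h0 := norm_nonneg (4 / 5 + 3 / 5 * Complex.I : ℂ)
    nlinarith
  obtain ⟨ρ, hρ1, hρ2, hρ⟩ := ray he
  set z : ℂ := (ρ:ℂ) * (4 / 5 + 3 / 5 * Complex.I) with hz
  have hqz : q z = 7 / 25 * s z := by
    simp [hz, q, s]
    ring
  have hs := s_bounds hρ
  have h1 := hp.2 z hρ
  have h2 : ‖gradient u z‖ ^ 2 ≤ ‖gradient u p‖ ^ 2 := pow_le_pow_left₀ (norm_nonneg _) h1 2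
  rw [grad_bdry hρ, grad_bdry hp.1.1, hqz] at h2
  have hP : ‖P' p‖ ^ 2 ≤ 3024 ^ 2 := by
    have := (mem_frontier p).1 hp.1.1
    exact pow_le_pow_left₀ (norm_nonneg _) (P'_bound this.1.le) 2
  have hP0 : 0 ≤ ‖P' z‖ ^ 2 := sq_nonneg _
  have hsp := s_bounds hp.1.1
  have hqp := abs_le.1 (q_le p)
  set a := q p
  set x := s p
  set y := s z
  have hG : 60 * a + 81 * (2 * a ^ 2 - x ^ 2) + 50 * (4 * a ^ 3 - 3 * a * x ^ 2) ≤
      60 * (7 / 25 * y) + 81 * (2 * (7 / 25 * y) ^ 2 - y ^ 2) +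
        50 * (4 * (7 / 25 * y) ^ 3 - 3 * (7 / 25 * y) * y ^ 2) + 1 / 2 := by
    norm_num at hP h2 ⊢
    linarith
  have hy : 60 * (7 / 25 * y) + 81 * (2 * (7 / 25 * y) ^ 2 - y ^ 2) +
        50 * (4 * (7 / 25 * y) ^ 3 - 3 * (7 / 25 * y) * y ^ 2) ≤ -88.5 := by
    have h2 : (999 / 1000) ^ 2 ≤ y ^ 2 := pow_le_pow_left₀ (by norm_num) hs.1 2
    have h3 : (999 / 1000) ^ 3 ≤ y ^ 3 := pow_le_pow_left₀ (by norm_num) hs.1 3
    have e : 60 * (7 / 25 * y) + 81 * (2 * (7 / 25 * y) ^ 2 - y ^ 2) +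
        50 * (4 * (7 / 25 * y) ^ 3 - 3 * (7 / 25 * y) * y ^ 2) =
        84 / 5 * y - 42687 / 625 * y ^ 2 - 23506 / 625 * y ^ 3 := by ring
    rw [e]
    norm_num at h2 h3 ⊢
    linarith [hs.2]
  by_contra hh
  push Not at hh
  have h5 : 60 * a + 81 * (2 * a ^ 2 - x ^ 2) + 50 * (4 * a ^ 3 - 3 * a * x ^ 2) ≤ -88 := by
    norm_num at hy ⊢; linarith
  have hx2 : x ^ 2 ≤ (1001 / 1000) ^ 2 := pow_le_pow_left₀ (by linarith [hsp.1]) hsp.2 2
  have hx3 : (999 / 1000) ^ 2 ≤ x ^ 2 := pow_le_pow_left₀ (by norm_num) hsp.1 2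
  have ha1 : -(1001 / 1000) ≤ a := by linarith [hqp.1, hsp.2]
  -- `g(a) ≥ -86`
  have hg : -86 ≤ 60 * a + 81 * (2 * a ^ 2 - 1) + 50 * (4 * a ^ 3 - 3 * a) := by
    have e : 60 * a + 81 * (2 * a ^ 2 - 1) + 50 * (4 * a ^ 3 - 3 * a) =
        -81 - 90 * a + 162 * a ^ 2 + 200 * a ^ 3 := by ring
    rw [e]
    rcases le_total 0 a with h0 | h0
    · have h11 : 0 ≤ a ^ 3 := by positivity
      have h12 := sq_nonneg a
      norm_num
      linarith
    · have h6 : 0 ≤ -a * (a + 1001 / 1000) := mul_nonneg (by linarith) (by linarith)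
      have h7 : 0 ≤ -a * (90 - 162 * a - 200 * a ^ 2) := by
        apply mul_nonneg (by linarith)
        have : 90 - 162 * a - 200 * a ^ 2 = 200 * (-a * (a + 1001 / 1000)) + (90 + 191 / 5 * a) := by
          ring
        rw [this]
        linarith
      have e2 : -81 - 90 * a + 162 * a ^ 2 + 200 * a ^ 3 = -81 + -a * (90 - 162 * a - 200 * a ^ 2) := by
        ring
      rw [e2]
      norm_num
      linarith
  have h8 : |(81 + 150 * a) * (x ^ 2 - 1)| ≤ 1 := by
    rw [abs_mul]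
    have h9 : |81 + 150 * a| ≤ 240 := by rw [abs_le]; constructor <;> linarith
    have h10 : |x ^ 2 - 1| ≤ 3 / 1000 := by
      rw [abs_le]; norm_num at hx2 hx3 ⊢; constructor <;> linarith
    calc |81 + 150 * a| * |x ^ 2 - 1| ≤ 240 * (3 / 1000) :=
          mul_le_mul h9 h10 (abs_nonneg _) (by norm_num)
      _ ≤ 1 := by norm_num
  have h9 := (abs_le.1 h8).2
  have e : 60 * a + 81 * (2 * a ^ 2 - x ^ 2) + 50 * (4 * a ^ 3 - 3 * a * x ^ 2) =
      60 * a + 81 * (2 * a ^ 2 - 1) + 50 * (4 * a ^ 3 - 3 * a) - (81 + 150 * a) * (x ^ 2 - 1) := by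
    ring
  rw [e] at h5
  norm_num at hg
  linarith

theorem closer {p : ℂ} (hp : MaxStress Ω u p) {α β : ℝ} (hα0 : 0 ≤ α) (hβ0 : 0 ≤ β)
    (hα : ((α:ℂ)) ∈ frontier Ω) (hβ : ((β:ℂ) * Complex.I) ∈ frontier Ω) :
    ‖p - α‖ < ‖p - β * Complex.I‖ := by
  have h1 := q_max hp
  have h2 := s_bounds hp.1.1
  have h3 := s_bounds hα
  have h4 := s_bounds hβ
  have hx := hp.1.2.1
  have hy := hp.1.2.2
  have e3 : s (α:ℂ) = α ^ 2 := by simp [s]
  have e4 : s ((β:ℂ) * Complex.I) = β ^ 2 := by simp [s]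
  rw [e3] at h3
  rw [e4] at h4
  have a1 : 999 / 1000 ≤ α := by nlinarith
  have a2 : α ≤ 1001 / 1000 := by nlinarith
  have b1 : 999 / 1000 ≤ β := by nlinarith
  have b2 : β ≤ 1001 / 1000 := by nlinarith
  unfold q at h1
  unfold s at h2
  set x := p.re
  set y := p.im
  have hxy : y < x := by nlinarith
  have hsum : x + y ≤ 3 / 2 := by nlinarith [sq_nonneg (x - y)]
  have hdiff : 1 / 30 ≤ x - y := by
    by_contra hh
    push Not at hh
    nlinarith
  have h5 : ‖p - α‖ ^ 2 < ‖p - β * Complex.I‖ ^ 2 := by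
    rw [norm_sq_eq, norm_sq_eq]
    simp only [s, Complex.sub_re, Complex.sub_im, Complex.ofReal_re, Complex.ofReal_im,
      Complex.mul_re, Complex.mul_im, Complex.I_re, Complex.I_im, mul_zero, mul_one, sub_zero,
      zero_mul, add_zero, zero_add, zero_sub]
    have c1 : 999 / 1000 * x ≤ α * x := mul_le_mul_of_nonneg_right a1 hx
    have c2 : β * y ≤ 1001 / 1000 * y := mul_le_mul_of_nonneg_right b2 hy
    nlinarith
  exact lt_of_pow_lt_pow_left₀ 2 (norm_nonneg _) h5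

theorem smoothBoundary : SmoothBoundary Ω := by
  intro x hx
  refine ⟨fun y => -u y, u_smooth.neg, ?_, ?_⟩
  · intro h0
    have h1 : fderiv ℝ (fun y => -u y) x = -fderiv ℝ u x := by
      exact fderiv_neg
    rw [h1, neg_eq_zero] at h0
    have h2 := fderiv_u x x
    rw [h0, real_inner_self_eq_norm_sq, norm_sq_eq] at h2
    have h3 := s_bounds hx
    rw [mem_frontier] at hx
    have h4 : |(P' x * x).re| ≤ 3024 * 2 := by
      refine (Complex.abs_re_le_norm _).trans ?_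
      rw [norm_mul]
      exact mul_le_mul (P'_bound hx.1.le) hx.1.le (norm_nonneg _) (by norm_num)
    have h5 := (abs_le.1 h4).2
    simp only [zero_apply] at h2
    norm_num at h2 h5
    linarith [h3.1]
  · rw [mem_frontier] at hx
    have : ∀ᶠ y in 𝓝 x, ‖y‖ < 2 := continuous_norm.continuousAt.eventually (Iio_mem_nhds hx.1)
    filter_upwards [this] with y hy
    constructor
    · intro h; linarith [h.2]
    · intro h; exact ⟨hy, by linarith⟩

theorem not_disc (c : ℂ) (r : ℝ) : Ω ≠ Metric.ball c r := by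
  intro h
  obtain ⟨α, hα1, hα2, hα⟩ := ray (e := 1) (by simp)
  obtain ⟨β, hβ1, hβ2, hβ⟩ := ray (e := Complex.I) (by simp)
  rw [mul_one] at hα
  have hα0 : 0 ≤ α := by linarith
  have hβ0 : 0 ≤ β := by linarith
  have hne : ((β:ℂ) * Complex.I) ≠ (α:ℂ) := by
    intro h
    have := congrArg Complex.re h
    simp at this
    linarith
  have hlt := (farthest hα0 hα).2 _ (closest hβ0 hβ).1 hne
  rw [norm_mul, Complex.norm_I, mul_one, Complex.norm_real, Complex.norm_real,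
    Real.norm_of_nonneg hα0, Real.norm_of_nonneg hβ0] at hlt
  have hr : 0 < r := by
    by_contra hr
    push Not at hr
    have h0 := zero_mem
    rw [h, Metric.ball_eq_empty.2 hr] at h0
    exact h0
  have hf : ∀ z ∈ frontier Ω, ‖z - c‖ ^ 2 = r ^ 2 := by
    intro z hz
    rw [h, frontier_ball c hr.ne', mem_sphere_iff_norm] at hz
    rw [hz]
  have f1 := hf _ hα
  have f2 := hf _ (neg_frontier hα)
  have f3 := hf _ hβ
  have f4 := hf _ (neg_frontier hβ)
  simp only [norm_sq_eq, s, Complex.sub_re, Complex.sub_im, Complex.ofReal_re, Complex.ofReal_im,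
      Complex.mul_re, Complex.mul_im, Complex.I_re, Complex.I_im, mul_zero, mul_one, sub_zero,
      zero_mul, add_zero, zero_add, zero_sub, Complex.neg_re, Complex.neg_im, neg_zero] at f1 f2 f3 f4
  have g1 : α * c.re = 0 := by linarith
  have g2 : β * c.im = 0 := by linarith
  have g3 : c.re = 0 := by
    rcases mul_eq_zero.1 g1 with h | h
    · linarith
    · exact h
  have g4 : c.im = 0 := by
    rcases mul_eq_zero.1 g2 with h | h
    · linarith
    · exact h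
  rw [g3, g4] at f1 f3
  nlinarith

theorem admissible : Admissible Ω where
  isOpen := Ω_open
  nonempty := ⟨0, zero_mem⟩
  bounded := by
    refine (Metric.isBounded_ball (x := (0:ℂ)) (r := 2)).subset ?_
    intro z hz
    simpa using hz.1
  convex := Ω_convex
  symm_x := fun z hz => ⟨by rw [RCLike.norm_conj]; exact hz.1, by rw [u_conj]; exact hz.2⟩
  symm_y := fun z hz => ⟨by rw [norm_neg, RCLike.norm_conj]; exact hz.1,
    by rw [u_negz, u_conj]; exact hz.2⟩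
  not_disc := not_disc
  smooth := smoothBoundary

/-- Both questions have a negative answer: there is an admissible domain `Ω`, with torsion function
`u` and unique farthest and closest arc points `xh`, `xc`, such that a point of maximal stress exists on
the arc and every point of maximal stress `p` on the arc satisfies `|p - xh| < |p - xc|`. -/
theorem result : ∃ (Ω : Set ℂ) (u : ℂ → ℝ) (xh xc : ℂ),
    Admissible Ω ∧ IsTorsion Ω u ∧ UniqueFarthest (Arc Ω) xh ∧ UniqueClosest (Arc Ω) xc ∧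
    (∃ p, MaxStress Ω u p) ∧ ∀ p, MaxStress Ω u p → ‖p - xh‖ < ‖p - xc‖ := by
  obtain ⟨α, hα1, hα2, hα⟩ := ray (e := 1) (by simp)
  obtain ⟨β, hβ1, hβ2, hβ⟩ := ray (e := Complex.I) (by simp)
  rw [mul_one] at hα
  have hα0 : 0 ≤ α := by linarith
  have hβ0 : 0 ≤ β := by linarith
  exact ⟨Ω, u, α, β * Complex.I, admissible,
    ⟨u_smooth, fun z _ => lap_u z, fun z hz => ((mem_frontier z).1 hz).2⟩,
    farthest hα0 hα, closest hβ0 hβ, exists_max, fun p hp => closer hp hα0 hβ0 hα hβ⟩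

end Pool.Agent.Results.MP_f43ce7_an.StressNearFar
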